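import Pool.Agent.N435.Cross

/-!
# Tight union-closed families with pairwise disjoint members

Let `A` be a finite union-closed family and `P` a system of pairwise disjoint nonempty members no
element of which lies in more than half of the members of `A` (for instance any such system, if `A`
is tight). Then at least `|P| - ∑ (1 - 2 ^ (-d k))` of the sets `p ∈ P` split off, where the sum is over
all union-irreducible members `k` crossing some `p ∈ P` (meeting `p` and not containing it) and `k`
crosses `d k` sets of `P`. The number of the members of `A` is `2 ^ m` times the number of the members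
disjoint from the `m` sets which split off.

The first part is the equality case of the theorem behind `MP_75f39d_co.CrossingMembers`, applied to
the sets of `P` which do not split off; sets which split off are crossed by no member.
-/

set_option autoImplicit false

namespace Pool.Agent.Results.MP_163ab5_co.CrossingMembers

open Finset

open scoped Classical in
/-- The union-irreducible members of `A`: the nonempty members which are not the union of two
members different from them. -/
noncomputable def irr {α : Type*} [DecidableEq α] (A : Finset (Finset α)) : Finset (Finset α) :=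
  A.filter (fun q => q.Nonempty ∧ ∀ X ∈ A, ∀ Y ∈ A, X ∪ Y = q → X = q ∨ Y = q)

open scoped Classical in
/-- The union-irreducible members of `A` which cross some `p ∈ P`, that is meet `p` and do not
contain it. -/
noncomputable def crossing {α : Type*} [DecidableEq α] (A P : Finset (Finset α)) :
    Finset (Finset α) :=
  (irr A).filter (fun k => ∃ p ∈ P, ¬ Disjoint p k ∧ ¬ p ⊆ k)

/-- The sets of `P` crossed by `k`. -/
def crossed {α : Type*} [DecidableEq α] (P : Finset (Finset α)) (k : Finset α) :
    Finset (Finset α) :=
  P.filter (fun p => ¬ Disjoint p k ∧ ¬ p ⊆ k)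

/-- `p` splits off from `A`: every member is disjoint from `p` or contains `p`, and `p` can be
removed from the members containing it (the result being a member or empty). -/
def SplitsOff {α : Type*} [DecidableEq α] (A : Finset (Finset α)) (p : Finset α) : Prop :=
  ∀ S ∈ A, Disjoint p S ∨ (p ⊆ S ∧ (S \ p ∈ A ∨ S \ p = ∅))

/-- Let `A` be a finite union-closed family and `P` a system of pairwise disjoint nonempty members,
none of which splits off from `A`. If the sum of `1 - 2 ^ (-d k)` over all union-irreducible members
`k` crossing some `p ∈ P` is less than `|P|`, where `k` crosses `d k` sets of `P`, then some element of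
a set in `P` lies in strictly more than half of the members of `A`. -/
theorem strict {α : Type*} [DecidableEq α] (A P : Finset (Finset α))
    (hunion : ∀ X ∈ A, ∀ Y ∈ A, X ∪ Y ∈ A) (hP : P ⊆ A)
    (hne : ∀ p ∈ P, p.Nonempty) (hdisj : ∀ p ∈ P, ∀ q ∈ P, p ≠ q → Disjoint p q)
    (hsplit : ∀ p ∈ P, ¬ SplitsOff A p)
    (hcard : ∑ k ∈ crossing A P, (1 - (1 / 2 : ℝ) ^ (crossed P k).card) < (P.card : ℝ)) :
    ∃ p ∈ P, ∃ x ∈ p, A.card < 2 * (A.filter (fun S => x ∈ S)).card := by
  classical
  by_contra hcon
  push Not at hcon
  have hirrdef : ∀ q, q ∈ irr A ↔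
      q ∈ A ∧ q.Nonempty ∧ ∀ X ∈ A, ∀ Y ∈ A, X ∪ Y = q → X = q ∨ Y = q := by
    intro q
    unfold irr
    rw [mem_filter]
  have H : ∀ p ∈ P, ∀ y ∈ p, 2 * (A.filter (fun S => y ∈ S)).card ≤ (insert ∅ A).card :=
    fun p hp y hy => (hcon p hp y hy).trans (card_le_card (subset_insert _ _))
  obtain ⟨p, hp, hu⟩ := Pool.Agent.N435.One.untouched_weighted A (irr A) P hunion rfl hP hne hdisj
    (by
      unfold crossing crossed at hcard
      convert hcard) H
  have h0 : ∀ q ∈ irr A, Disjoint p q ∨ p ⊆ q := fun q hq => hu q (mem_union_left _ hq)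
  obtain ⟨y, hy⟩ := hne p hp
  have h2 := (Pool.Agent.N435.untouched
    (Pool.Agent.N435.sys_irr A (irr A) P hunion rfl hP hne hdisj) hp hu hy).2
    (by
      rw [Pool.Agent.N435.filter_insert_empty]
      exact H p hp y hy)
  apply hsplit p hp
  intro S hS
  by_cases hd : Disjoint p S
  · exact Or.inl hd
  · right
    obtain ⟨x, hxp, hxS⟩ := not_disjoint_iff.1 hd
    obtain ⟨q, hq, hq', hxq, hqS⟩ := Pool.Agent.N435.irr_gen A S hS x hxS
    have hpS : p ⊆ S := by
      rcases h0 q ((hirrdef q).2 ⟨hq, hq'⟩) with h | h
      · exact absurd hxq (Finset.disjoint_left.1 h hxp)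
      · exact h.trans hqS
    refine ⟨hpS, ?_⟩
    rcases mem_insert.1 (h2 S (mem_insert_of_mem hS) hpS) with h | h
    · exact Or.inr h
    · exact Or.inl h


theorem empty_mem {α : Type*} [DecidableEq α] (A : Finset (Finset α))
    (hunion : ∀ X ∈ A, ∀ Y ∈ A, X ∪ Y ∈ A) (p : Finset α) (hpA : p ∈ A) (hpne : p.Nonempty)
    (hle : ∀ x ∈ p, 2 * (A.filter (fun S => x ∈ S)).card ≤ A.card) (hs : SplitsOff A p) :
    ∅ ∈ A := by
  by_contra hem
  obtain ⟨x, hxp⟩ := hpne
  have hdisj : ∀ T ∈ A, x ∉ T → Disjoint T p := by
    intro T hT hxT
    rcases hs T hT with h | h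
    · exact h.symm
    · exact absurd (h.1 hxp) hxT
  have hlt : (A.filter (fun T => x ∉ T)).card < (A.filter (fun T => x ∈ T)).card := by
    rw [← card_image_of_injOn (f := fun T => T ∪ p) (s := A.filter (fun T => x ∉ T))]
    · apply card_lt_card
      rw [ssubset_iff_of_subset]
      · refine ⟨p, mem_filter.2 ⟨hpA, hxp⟩, ?_⟩
        intro hh
        rw [mem_image] at hh
        obtain ⟨T, hT, hTq⟩ := hh
        rw [mem_filter] at hT
        have h1 : T ⊆ p := by
          rw [← hTq]
          exact subset_union_left
        have h2 := hdisj T hT.1 hT.2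
        have h3 : T = ∅ := by
          rw [← subset_empty]
          intro y hy
          exact absurd (h1 hy) (disjoint_left.1 h2 hy)
        rw [h3] at hT
        exact hem hT.1
      · intro T hT
        rw [mem_image] at hT
        obtain ⟨U, hU, rfl⟩ := hT
        rw [mem_filter] at hU ⊢
        exact ⟨hunion _ hU.1 _ hpA, mem_union_right _ hxp⟩
    · intro T hT U hU hTU
      rw [mem_coe, mem_filter] at hT hU
      have h1 := hdisj T hT.1 hT.2
      have h2 := hdisj U hU.1 hU.2
      have h3 : T ∪ p = U ∪ p := hTU
      have h4 : (T ∪ p) \ p = (U ∪ p) \ p := by rw [h3]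
      rwa [union_sdiff_cancel_right h1, union_sdiff_cancel_right h2] at h4
  have hc := card_filter_add_card_filter_not (s := A) (fun T => x ∈ T)
  have h2 := hle x hxp
  omega

/-- the product decomposition -/
theorem product {α : Type*} [DecidableEq α] (A : Finset (Finset α))
    (hunion : ∀ X ∈ A, ∀ Y ∈ A, X ∪ Y ∈ A) (hem : ∅ ∈ A) (Q : Finset (Finset α)) :
    Q ⊆ A → (∀ p ∈ Q, p.Nonempty) → (∀ p ∈ Q, ∀ q ∈ Q, p ≠ q → Disjoint p q) →
    (∀ p ∈ Q, SplitsOff A p) →
    A.card = 2 ^ Q.card * (A.filter (fun S => ∀ p ∈ Q, Disjoint S p)).card := by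
  induction Q using Finset.induction_on with
  | empty =>
    intro _ _ _ _
    rw [filter_true_of_mem (fun S _ p hp => absurd hp (notMem_empty p))]
    simp
  | insert p Q hpQ ih =>
    intro hQA hne hdis hs
    rw [ih ((subset_insert _ _).trans hQA) (fun q hq => hne q (mem_insert_of_mem hq))
      (fun q hq r hr => hdis q (mem_insert_of_mem hq) r (mem_insert_of_mem hr))
      (fun q hq => hs q (mem_insert_of_mem hq)), card_insert_of_notMem hpQ, pow_succ, mul_assoc]
    congr 1
    -- split according to `p`
    have hpA : p ∈ A := hQA (mem_insert_self _ _)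
    have hsp := hs p (mem_insert_self _ _)
    obtain ⟨x, hx⟩ := hne p (mem_insert_self _ _)
    have hB : A.filter (fun S => ∀ q ∈ insert p Q, Disjoint S q) =
        (A.filter (fun S => ∀ q ∈ Q, Disjoint S q)).filter (fun S => Disjoint S p) := by
      ext S
      simp only [mem_filter, mem_insert, forall_eq_or_imp]
      tauto
    rw [hB]
    set B := A.filter (fun S => ∀ q ∈ Q, Disjoint S q) with hBdef
    have h1 := card_filter_add_card_filter_not (s := B) (fun S => Disjoint S p)
    have h2 : (B.filter (fun S => ¬ Disjoint S p)).card = (B.filter (fun S => Disjoint S p)).card := by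
      symm
      apply card_bij (fun S _ => S ∪ p)
      · intro S hS
        rw [mem_filter, hBdef, mem_filter] at hS ⊢
        refine ⟨⟨hunion _ hS.1.1 _ hpA, ?_⟩, ?_⟩
        · intro q hq
          rw [disjoint_union_left]
          refine ⟨hS.1.2 q hq, ?_⟩
          apply hdis p (mem_insert_self _ _) q (mem_insert_of_mem hq)
          rintro rfl
          exact hpQ hq
        · intro hd
          exact disjoint_left.1 hd (mem_union_right _ hx) hx
      · intro S hS T hT hST
        rw [mem_filter] at hS hT
        have h3 : (S ∪ p) \ p = (T ∪ p) \ p := by rw [hST]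
        rwa [union_sdiff_cancel_right hS.2, union_sdiff_cancel_right hT.2] at h3
      · intro S hS
        rw [mem_filter, hBdef, mem_filter] at hS
        rcases hsp S hS.1.1 with h3 | ⟨h3, h4⟩
        · exact absurd h3.symm hS.2
        · have h5 : S \ p ∈ A := by
            rcases h4 with h4 | h4
            · exact h4
            · rw [h4]; exact hem
          refine ⟨S \ p, ?_, ?_⟩
          · rw [mem_filter, hBdef, mem_filter]
            refine ⟨⟨h5, fun q hq => disjoint_of_subset_left sdiff_subset (hS.1.2 q hq)⟩,
              sdiff_disjoint⟩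
          · exact sdiff_union_of_subset h3
    omega

open scoped Classical in
/-- Let `A` be a finite union-closed family and `P` a system of pairwise disjoint nonempty members
whose elements lie in at most half of the members of `A`. Then at least
`|P| - ∑ (1 - 2 ^ (-d k))` of the sets `p ∈ P` split off, where the sum is over all union-irreducible
members `k` crossing some `p ∈ P` and `k` crosses `d k` sets of `P`; and if `Q` is the set of the
members of `P` which split off, the number of the members of `A` is `2 ^ |Q|` times the number of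
those disjoint from all sets of `Q`. -/
theorem result {α : Type*} [DecidableEq α] (A P : Finset (Finset α))
    (hunion : ∀ X ∈ A, ∀ Y ∈ A, X ∪ Y ∈ A) (hP : P ⊆ A)
    (hne : ∀ p ∈ P, p.Nonempty) (hdisj : ∀ p ∈ P, ∀ q ∈ P, p ≠ q → Disjoint p q)
    (hle : ∀ p ∈ P, ∀ x ∈ p, 2 * (A.filter (fun S => x ∈ S)).card ≤ A.card) :
    (P.card : ℝ) - ∑ k ∈ crossing A P, (1 - (1 / 2 : ℝ) ^ (crossed P k).card) ≤
        ((P.filter (fun p => SplitsOff A p)).card : ℝ) ∧
      A.card = 2 ^ (P.filter (fun p => SplitsOff A p)).card *
        (A.filter (fun S => ∀ p ∈ P, SplitsOff A p → Disjoint S p)).card := by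
  classical
  have hirrA : irr A ⊆ A := by
    unfold irr
    exact filter_subset _ _
  constructor
  · by_contra hcon
    rw [not_le] at hcon
    set P' := P.filter (fun p => ¬ SplitsOff A p) with hP'
    have hsubP : P' ⊆ P := filter_subset _ _
    have hcard := card_filter_add_card_filter_not (s := P) (fun p => SplitsOff A p)
    have hnc : ∀ k ∈ A, ∀ p ∈ P, (¬ Disjoint p k ∧ ¬ p ⊆ k) → p ∈ P' := by
      intro k hk p hp hc
      rw [hP', mem_filter]
      refine ⟨hp, fun hs => ?_⟩
      rcases hs k hk with h | h
      · exact hc.1 h
      · exact hc.2 h.1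
    have hcr : crossing A P' = crossing A P := by
      unfold crossing
      apply filter_congr
      intro k hk
      constructor
      · rintro ⟨p, hp, hc⟩
        exact ⟨p, hsubP hp, hc⟩
      · rintro ⟨p, hp, hc⟩
        exact ⟨p, hnc k (hirrA hk) p hp hc, hc⟩
    have hcd : ∀ k ∈ crossing A P, crossed P' k = crossed P k := by
      intro k hk
      have hkA : k ∈ A := by
        unfold crossing at hk
        exact hirrA (mem_filter.1 hk).1
      ext p
      constructor
      · intro h
        have h' := mem_filter.1 h
        exact mem_filter.2 ⟨hsubP h'.1, h'.2⟩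
      · intro h
        have h' := mem_filter.1 h
        exact mem_filter.2 ⟨hnc k hkA p h'.1 h'.2, h'.2⟩
    have hsum : ∑ k ∈ crossing A P', (1 - (1 / 2 : ℝ) ^ (crossed P' k).card) < (P'.card : ℝ) := by
      rw [hcr, sum_congr rfl (fun k hk => by rw [hcd k hk])]
      have h1 : (P.card : ℝ) = ((P.filter (fun p => SplitsOff A p)).card : ℝ) + P'.card := by
        rw [← hcard]
        push_cast
        rfl
      linarith
    obtain ⟨p, hp, x, hx, hlt⟩ := strict A P' hunion (hsubP.trans hP)
      (fun p hp => hne p (hsubP hp))
      (fun p hp q hq => hdisj p (hsubP hp) q (hsubP hq))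
      (fun p hp => (mem_filter.1 hp).2) hsum
    have := hle p (hsubP hp) x hx
    omega
  · rcases (P.filter (fun p => SplitsOff A p)).eq_empty_or_nonempty with h0 | ⟨p, hp⟩
    · rw [h0, card_empty, pow_zero, one_mul, filter_true_of_mem]
      intro S _ p hp hs
      have : p ∈ P.filter (fun p => SplitsOff A p) := mem_filter.2 ⟨hp, hs⟩
      rw [h0] at this
      exact absurd this (notMem_empty p)
    · have hp' := mem_filter.1 hp
      have hem := empty_mem A hunion p (hP hp'.1) (hne p hp'.1) (hle p hp'.1) hp'.2
      have h1 := product A hunion hem (P.filter (fun p => SplitsOff A p))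
        ((filter_subset _ _).trans hP) (fun q hq => hne q (mem_filter.1 hq).1)
        (fun q hq r hr => hdisj q (mem_filter.1 hq).1 r (mem_filter.1 hr).1)
        (fun q hq => (mem_filter.1 hq).2)
      refine h1.trans ?_
      congr 2
      apply filter_congr
      intro S _
      constructor
      · intro h q hq hs
        exact h q (mem_filter.2 ⟨hq, hs⟩)
      · intro h q hq
        exact h q (mem_filter.1 hq).1 (mem_filter.1 hq).2

end Pool.Agent.Results.MP_163ab5_co.CrossingMembers
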