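import Pool.Agent.N361.DC.Strict
import Pool.Agent.N521.DC.Inner
import Pool.Agent.N999.DC.Core
import Pool.Agent.N849.DC.Mono
import Pool.Agent.N407.DC.Flow
import Pool.Agent.N134.DC.Num
import Pool.Agent.N87.DC.Conf

/-!
# Tight union-closed families containing a design, or a family of large degree and small codegree

Let `F` be a finite union-closed family, `N` a finite set of points each of which lies in at most
half of the members of `F` (for instance any set, if `F` is tight), and `K` a set of members of `F`
that are subsets of `N`; nothing is assumed about the other members of `F` and the other elements. If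
the degrees of `K` on `N` are large compared with the codegrees, then `F` is closed under adding and
removing elements of `N`; so `F` is the product of the power set of `N` and a family on the other
elements, and the number of its members is `2 ^ |N|` times the number of the members of this family.

This is the equality case of the theorem behind `MP_9bc572_co.DegreeCodegree` and
`MP_75f39d_co.DegreeCodegree` (helpers 361, 521, 407, 134, 999, 849, 87).
-/

set_option autoImplicit false

namespace Pool.Agent.Results.MP_163ab5_co.DegreeCodegree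

open Finset

/-- The finite family `F` of finite sets is union-closed. -/
def UnionClosed (F : Finset (Finset ℕ)) : Prop := ∀ A ∈ F, ∀ B ∈ F, A ∪ B ∈ F

/-- Every element of `N` lies in at most half of the members of `F`. -/
def AtMostHalf (F : Finset (Finset ℕ)) (N : Finset ℕ) : Prop :=
  ∀ x ∈ N, 2 * (F.filter (fun A => x ∈ A)).card ≤ F.card

/-- `F` is closed under adding and removing elements of `N`, and the number of its members is
`2 ^ |N|` times the number of the members disjoint from `N`. -/
def Splits (F : Finset (Finset ℕ)) (N : Finset ℕ) : Prop :=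
  (∀ S ∈ F, ∀ R ⊆ N, (S \ N) ∪ R ∈ F) ∧
    F.card = 2 ^ N.card * (F.filter (fun A => Disjoint A N)).card

theorem splits_of_free {F : Finset (Finset ℕ)} {N : Finset ℕ}
    (hfree : ∀ S ∈ F, ∀ R ⊆ N, (S \ N) ∪ R ∈ F) : Splits F N := by
  refine ⟨hfree, ?_⟩
  rw [← card_powerset, ← card_product]
  symm
  apply card_bij (fun p _ => p.2 ∪ p.1)
  · rintro ⟨B, A⟩ hp
    rw [mem_product, mem_powerset, mem_filter] at hp
    have h1 := hfree A hp.2.1 B hp.1
    rwa [sdiff_eq_self_of_disjoint hp.2.2] at h1
  · rintro ⟨B, A⟩ hp ⟨B', A'⟩ hp' heq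
    rw [mem_product, mem_powerset, mem_filter] at hp hp'
    have heq' : A ∪ B = A' ∪ B' := heq
    have e1 : ∀ (C D : Finset ℕ), Disjoint C N → D ⊆ N → (C ∪ D) \ N = C ∧ (C ∪ D) ∩ N = D := by
      intro C D hC hD
      constructor
      · ext y
        have hy1 : y ∈ C → y ∉ N := fun h => disjoint_left.1 hC h
        have hy2 : y ∈ D → y ∈ N := fun h => hD h
        rw [mem_sdiff, mem_union]
        tauto
      · ext y
        have hy1 : y ∈ C → y ∉ N := fun h => disjoint_left.1 hC h
        have hy2 : y ∈ D → y ∈ N := fun h => hD h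
        rw [mem_inter, mem_union]
        tauto
    have h1 := e1 A B hp.2.2 hp.1
    have h2 := e1 A' B' hp'.2.2 hp'.1
    rw [heq'] at h1
    have h3 : A = A' := h1.1.symm.trans h2.1
    have h4 : B = B' := h1.2.symm.trans h2.2
    rw [h3, h4]
  · intro A hA
    refine ⟨(A ∩ N, A \ N), ?_, ?_⟩
    · rw [mem_product, mem_powerset, mem_filter]
      refine ⟨inter_subset_right, ?_, sdiff_disjoint⟩
      have h1 := hfree A hA ∅ (empty_subset _)
      rwa [union_empty] at h1
    · exact sdiff_union_inter A N

theorem strict_false {F : Finset (Finset ℕ)} {N : Finset ℕ} (hle : AtMostHalf F N)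
    (h : ∃ x ∈ N, F.card < 2 * (F.filter (fun A => x ∈ A)).card) : False := by
  obtain ⟨x, hx, hlt⟩ := h
  have := hle x hx
  omega

open Classical in
theorem result :
    -- (1) the criterion
    (∀ (F K : Finset (Finset ℕ)) (N : Finset ℕ) (w : Finset ℕ → ℚ), UnionClosed F → K ⊆ F →
      N.Nonempty → AtMostHalf F N → (∀ A ∈ K, A ⊆ N ∧ 0 ≤ w A) →
      (∀ x ∈ N, 1 < ∑ A ∈ K.filter (fun A => x ∈ A), w A) →
      (∀ x ∈ N, ∀ y ∈ N, x ≠ y → ∑ A ∈ K.filter (fun A => x ∈ A ∧ y ∈ A),
        w A * ((2 ^ (A.card - 1) - 1) / ((A.card : ℚ) - 1)) ≤ 1) →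
      Splits F N) ∧
    -- (2) pairwise balanced designs
    (∀ (F K : Finset (Finset ℕ)) (N : Finset ℕ) (l : ℕ), UnionClosed F → K ⊆ F →
      2 ≤ N.card → AtMostHalf F N → 1 ≤ l → (∀ A ∈ K, A ⊆ N ∧ 2 ^ (A.card - 1) < N.card) →
      (∀ x ∈ N, ∀ y ∈ N, x ≠ y → (K.filter (fun A => x ∈ A ∧ y ∈ A)).card = l) →
      Splits F N) ∧
    -- (3) uniform families with given size and codegrees
    (∀ (F K : Finset (Finset ℕ)) (N : Finset ℕ) (k l : ℕ), UnionClosed F → K ⊆ F →
      N.Nonempty → AtMostHalf F N → 2 ≤ k → 1 ≤ l → (∀ A ∈ K, A ⊆ N ∧ A.card = k) →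
      (∀ x ∈ N, ∀ y ∈ N, x ≠ y → (K.filter (fun A => x ∈ A ∧ y ∈ A)).card ≤ l) →
      l * (2 ^ (k - 1) - 1) * N.card < (k - 1) * K.card →
      ∃ M ⊆ N, M.Nonempty ∧ Splits F M) := by
  have hflow := Pool.Agent.N407.DC.flow
  have hinner := Pool.Agent.N521.DC.inner Pool.Agent.N134.DC.num
  have hcore := Pool.Agent.N999.DC.core
  refine ⟨?_, ?_, ?_⟩
  · intro F K N w hF hKF hN hle hK h1 h2
    rcases Pool.Agent.N361.DC.strict_gt hflow hinner hF hN hKF
      (fun A hA => (hK A hA).1) (fun A hA => (hK A hA).2) h1 (by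
        intro x hx y hy hxy
        refine le_trans (le_of_eq ?_) (h2 x hx y hy hxy)
        refine sum_congr rfl fun A hA => ?_
        rw [mem_filter] at hA
        have h3 : 1 ≤ A.card := card_pos.2 ⟨x, hA.2.1⟩
        unfold Pool.Agent.N361.DC.psi
        rw [Nat.cast_sub h3, Nat.cast_one]) with h | h
    · exact (strict_false hle h).elim
    · exact splits_of_free h
  · intro F K N l hF hKF hN hle hl0 hK hl
    rcases Pool.Agent.N361.DC.pbd_strict hflow hinner hF hKF (fun A hA => (hK A hA).1) hl0 hN hl
      (fun A hA => (hK A hA).2) with h | h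
    · exact (strict_false hle h).elim
    · exact splits_of_free h
  · intro F K N k l hF hKF hN hle hk hl0 hK hl hm
    obtain ⟨M, hM, hne, h⟩ :=
      Pool.Agent.N361.DC.codeg_strict hflow hinner hcore hF hN hKF hk hl0 hK hl hm
    refine ⟨M, hM, hne, ?_⟩
    rcases h with h | h
    · exact (strict_false (fun x hx => hle x (hM hx)) h).elim
    · exact splits_of_free h

end Pool.Agent.Results.MP_163ab5_co.DegreeCodegree
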