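import Pool.Agent.N188.FC.Main

set_option autoImplicit false

/-!
# Tight union-closed families containing half of the subsets of some set

Let `F` be a finite union-closed family, `S` a finite set no element of which lies in more than half
of the members of `F` (for instance any set, if `F` is tight), and let `G` be a family of subsets of
`S` with `A ∪ B ∈ F` for all `A ∈ F`, `B ∈ G`; for instance `G = {A ∈ F : A ⊆ S}`. Nothing is assumed
about the elements outside `S`. If for every `x ∈ S` more than half of the sets `Z` with
`x ∈ Z ⊆ S` contain a member of `G` containing `x`, or if `G` contains at least `2 ^ (|S| - 1)`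
nonempty sets, then `F` is the product of the power set of `S` and a union-closed family on the other
elements, and the number of the members of `F` is divisible by `2 ^ |S|`.

This is the equality case of the theorem behind `MP_9bc572_co.DenseInside` and
`MP_75f39d_co.DenseInside` (helper188).
-/

namespace Pool.Agent.Results.MP_163ab5_co.DenseInside

open Finset

theorem result {α : Type*} [DecidableEq α] (F G : Finset (Finset α)) (S : Finset α)
    (hF : ∀ A ∈ F, ∀ B ∈ F, A ∪ B ∈ F) (hG : ∀ B ∈ G, B ⊆ S)
    (hFG : ∀ A ∈ F, ∀ B ∈ G, A ∪ B ∈ F)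
    (hle : ∀ x ∈ S, 2 * (F.filter (fun A => x ∈ A)).card ≤ F.card)
    (h : (∀ x ∈ S, 2 ^ S.card < 4 * (S.powerset.filter (fun Z => ∃ B ∈ G, x ∈ B ∧ B ⊆ Z)).card) ∨
      2 ^ S.card ≤ 2 * (G.filter (fun B => B.Nonempty)).card) :
    (∀ A ∈ F, ∀ B, B ⊆ S → A ∪ B ∈ F ∧ A \ B ∈ F) ∧
      F.card = 2 ^ S.card * (F.filter (fun A => Disjoint A S)).card := by
  classical
  have hfree : ∀ A ∈ F, ∀ B, B ⊆ S → A ∪ B ∈ F ∧ A \ B ∈ F := by
    rcases h with h | h
    · rcases Pool.Agent.N188.FC.crit_lt hF hG hFG (by
        intro x hx
        have := h x hx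
        unfold Pool.Agent.N188.FC.covered
        convert this) with h1 | h1
      · exfalso
        have h2 : ∑ x ∈ S, 2 * (F.filter (fun A => x ∈ A)).card ≤ ∑ x ∈ S, F.card :=
          sum_le_sum hle
        rw [← mul_sum, Pool.Agent.N188.LD.sum_freq, sum_const, smul_eq_mul,
          mul_comm S.card] at h2
        omega
      · exact h1
    · rcases Pool.Agent.N188.FC.density_lt hF S.card S
        (insert ∅ (G.filter (fun B => B.Nonempty))) rfl (by
          intro B hB
          rcases mem_insert.1 hB with rfl | hB
          · exact empty_subset _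
          · exact hG B (mem_filter.1 hB).1) (by
          intro A hA B hB
          rcases mem_insert.1 hB with rfl | hB
          · simpa using hA
          · exact hFG A hA B (mem_filter.1 hB).1) (by
          rw [card_insert_of_notMem (by simp)]
          omega) with h1 | h1
      · exfalso
        obtain ⟨x, hx, hx2⟩ := h1
        have := hle x hx
        omega
      · exact h1
  refine ⟨hfree, ?_⟩
  rw [← card_powerset, ← card_product]
  symm
  apply card_bij (fun p _ => p.2 ∪ p.1)
  · rintro ⟨B, A⟩ hp
    rw [mem_product, mem_powerset, mem_filter] at hp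
    exact (hfree A hp.2.1 B hp.1).1
  · rintro ⟨B, A⟩ hp ⟨B', A'⟩ hp' heq
    rw [mem_product, mem_powerset, mem_filter] at hp hp'
    have heq' : A ∪ B = A' ∪ B' := heq
    have e1 : ∀ (C D : Finset α), Disjoint C S → D ⊆ S → (C ∪ D) \ S = C ∧ (C ∪ D) ∩ S = D := by
      intro C D hC hD
      constructor
      · ext y
        have hy1 : y ∈ C → y ∉ S := fun h => disjoint_left.1 hC h
        have hy2 : y ∈ D → y ∈ S := fun h => hD h
        rw [mem_sdiff, mem_union]
        tauto
      · ext y
        have hy1 : y ∈ C → y ∉ S := fun h => disjoint_left.1 hC h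
        have hy2 : y ∈ D → y ∈ S := fun h => hD h
        rw [mem_inter, mem_union]
        tauto
    have h1 := e1 A B hp.2.2 hp.1
    have h2 := e1 A' B' hp'.2.2 hp'.1
    rw [heq'] at h1
    have h3 : A = A' := h1.1.symm.trans h2.1
    have h4 : B = B' := h1.2.symm.trans h2.2
    rw [h3, h4]
  · intro A hA
    refine ⟨(A ∩ S, A \ S), ?_, ?_⟩
    · rw [mem_product, mem_powerset, mem_filter]
      exact ⟨inter_subset_right, (hfree A hA S Subset.rfl).2, sdiff_disjoint⟩
    · exact sdiff_union_inter A S

end Pool.Agent.Results.MP_163ab5_co.DenseInside
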