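import Pool.Agent.N435.Dense12

/-!
# Tight union-closed families of exponential density

Let `A` be a nonempty union-closed family in which no element lies in more than half of the members
(for instance a tight family), with `g₁` union-irreducible members which meet another
union-irreducible member and `g₀` others. If `A ∪ {∅}` has at least `12 ^ (g₁ / 4) 2 ^ g₀` members,
then the union-irreducible members are pairwise disjoint and `A` has exactly `2 ^ g` members,
`g = g₀ + g₁`.

The proof uses the theorem for dense families behind `MP_9bc572_co.ExponentialDensity`: it gives an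
irreducible member `p` meeting another one which is disjoint from all other irreducible members,
unless there is no irreducible member meeting another one. In this case `A ∪ {∅}` consists of the
`2 ^ g` unions of irreducible members, and `∅ ∈ A`, since otherwise the elements of an irreducible
member lie in more than half of the members.
-/

set_option autoImplicit false

namespace Pool.Agent.Results.MP_163ab5_co.ExponentialDensity

open Finset

open scoped Classical in
/-- The union-irreducible members of `A`: the nonempty members which are not the union of two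
members different from them. -/
noncomputable def irr {α : Type*} [DecidableEq α] (A : Finset (Finset α)) : Finset (Finset α) :=
  A.filter (fun q => q.Nonempty ∧ ∀ X ∈ A, ∀ Y ∈ A, X ∪ Y = q → X = q ∨ Y = q)

open scoped Classical in
/-- The union-irreducible members of `A` which meet another union-irreducible member of `A`. -/
noncomputable def linked {α : Type*} [DecidableEq α] (A : Finset (Finset α)) :
    Finset (Finset α) :=
  (irr A).filter (fun p => ∃ q ∈ irr A, q ≠ p ∧ ¬ Disjoint p q)

/-- Let `A` be a nonempty finite union-closed family in which no element lies in more than half of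
the members, let `g₁` be the number of its union-irreducible members which meet another one and `g₀`
the number of the others. If `|A ∪ {∅}| ^ 4 ≥ 12 ^ g₁ 16 ^ g₀`, then the union-irreducible members of
`A` are pairwise disjoint and `|A| = 2 ^ (g₀ + g₁)`. -/
theorem result {α : Type*} [DecidableEq α] (A : Finset (Finset α)) (hne : A.Nonempty)
    (hunion : ∀ X ∈ A, ∀ Y ∈ A, X ∪ Y ∈ A)
    (hle : ∀ i ∈ A.sup id, 2 * (A.filter (fun S => i ∈ S)).card ≤ A.card)
    (hm : 12 ^ (linked A).card * 16 ^ (irr A \ linked A).card ≤ (insert ∅ A).card ^ 4) :
    (∀ p ∈ irr A, ∀ q ∈ irr A, q ≠ p → Disjoint p q) ∧ A.card = 2 ^ (irr A).card := by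
  classical
  have hmem : ∀ x, x ∈ A.sup id ↔ ∃ S ∈ A, x ∈ S := by
    intro x
    rw [mem_sup]
    rfl
  have H0 : ∀ x, 2 * (A.filter (fun S => x ∈ S)).card ≤ A.card := by
    intro x
    by_cases hx : x ∈ A.sup id
    · exact hle x hx
    · have : A.filter (fun S => x ∈ S) = ∅ := by
        rw [filter_eq_empty_iff]
        intro S hS hxS
        exact hx ((hmem x).2 ⟨S, hS, hxS⟩)
      rw [this]
      simp
  have H : ∀ x, 2 * (A.filter (fun S => x ∈ S)).card ≤ (insert ∅ A).card := fun x =>
    (H0 x).trans (card_le_card (subset_insert _ _))
  have hirrdef : ∀ q, q ∈ irr A ↔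
      q ∈ A ∧ q.Nonempty ∧ ∀ X ∈ A, ∀ Y ∈ A, X ∪ Y = q → X = q ∨ Y = q := by
    intro q
    unfold irr
    rw [mem_filter]
  have hgen : ∀ S ∈ A, ∀ x ∈ S, ∃ q ∈ irr A, x ∈ q ∧ q ⊆ S := by
    intro S hS x hx
    obtain ⟨q, hq, hq', hxq, hqS⟩ := Pool.Agent.N435.irr_gen A S hS x hx
    exact ⟨q, (hirrdef q).2 ⟨hq, hq'⟩, hxq, hqS⟩
  rcases (linked A).eq_empty_or_nonempty with h0 | h1
  · -- the irreducible members are pairwise disjoint
    have hdis : ∀ p ∈ irr A, ∀ q ∈ irr A, q ≠ p → Disjoint p q := by
      intro p hp q hq hqp
      by_contra hd
      have : p ∈ linked A := by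
        unfold linked
        rw [mem_filter]
        exact ⟨hp, q, hq, hqp, hd⟩
      rw [h0] at this
      exact notMem_empty p this
    refine ⟨hdis, ?_⟩
    -- the empty set is a member
    have hem : ∅ ∈ A := by
      by_contra hem
      obtain ⟨S, hS⟩ := hne
      have hSne : S.Nonempty := by
        rw [nonempty_iff_ne_empty]
        rintro rfl
        exact hem hS
      obtain ⟨x, hxS⟩ := hSne
      obtain ⟨q, hq, hxq, hqS⟩ := hgen S hS x hxS
      have hqA := ((hirrdef q).1 hq).1
      have hdisj : ∀ T ∈ A, x ∉ T → Disjoint T q := by
        intro T hT hxT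
        rw [disjoint_left]
        intro y hyT hyq
        obtain ⟨r, hr, hyr, hrT⟩ := hgen T hT y hyT
        have hrq : r = q := by
          by_contra hh
          exact (disjoint_left.1 (hdis q hq r hr hh)) hyq hyr
        rw [hrq] at hrT
        exact hxT (hrT hxq)
      have hlt : (A.filter (fun T => x ∉ T)).card < (A.filter (fun T => x ∈ T)).card := by
        rw [← card_image_of_injOn (f := fun T => T ∪ q) (s := A.filter (fun T => x ∉ T))]
        · apply card_lt_card
          rw [ssubset_iff_of_subset]
          · refine ⟨q, mem_filter.2 ⟨hqA, hxq⟩, ?_⟩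
            intro hh
            rw [mem_image] at hh
            obtain ⟨T, hT, hTq⟩ := hh
            rw [mem_filter] at hT
            have h1 : T ⊆ q := by
              rw [← hTq]
              exact subset_union_left
            have h2 := hdisj T hT.1 hT.2
            have h3 : T = ∅ := by
              rw [← subset_empty]
              intro y hy
              exact absurd (h1 hy) (disjoint_left.1 h2 hy)
            rw [h3] at hT
            exact hem hT.1
          · intro T hT
            rw [mem_image] at hT
            obtain ⟨U, hU, rfl⟩ := hT
            rw [mem_filter] at hU ⊢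
            exact ⟨hunion _ hU.1 _ hqA, mem_union_right _ hxq⟩
        · intro T hT U hU hTU
          rw [mem_coe, mem_filter] at hT hU
          have h1 := hdisj T hT.1 hT.2
          have h2 := hdisj U hU.1 hU.2
          have h3 : T ∪ q = U ∪ q := hTU
          have h4 : (T ∪ q) \ q = (U ∪ q) \ q := by rw [h3]
          rwa [union_sdiff_cancel_right h1, union_sdiff_cancel_right h2] at h4
      have hc := card_filter_add_card_filter_not (s := A) (fun T => x ∈ T)
      have h2 := H0 x
      omega
    -- the members are the unions of irreducible members
    have hbij : ((irr A).powerset.image (fun Q => Q.sup id)) = A := by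
      ext S
      rw [mem_image]
      constructor
      · rintro ⟨Q, hQ, rfl⟩
        rw [mem_powerset] at hQ
        have : ∀ Q : Finset (Finset α), Q ⊆ irr A → Q.sup id ∈ A := by
          intro Q
          induction Q using Finset.induction_on with
          | empty => intro _; simpa using hem
          | insert a Q _ ih =>
            intro hQ
            rw [sup_insert]
            exact hunion _ ((hirrdef a).1 (hQ (mem_insert_self _ _))).1 _
              (ih ((subset_insert _ _).trans hQ))
        exact this Q hQ
      · intro hS
        refine ⟨(irr A).filter (fun q => q ⊆ S), ?_, ?_⟩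
        · rw [mem_powerset]
          exact filter_subset _ _
        · ext x
          rw [mem_sup]
          constructor
          · rintro ⟨q, hq, hxq⟩
            exact (mem_filter.1 hq).2 hxq
          · intro hx
            obtain ⟨q, hq, hxq, hqS⟩ := hgen S hS x hx
            exact ⟨q, mem_filter.2 ⟨hq, hqS⟩, hxq⟩
    have hinj : Set.InjOn (fun Q : Finset (Finset α) => Q.sup id)
        (↑(irr A).powerset : Set (Finset (Finset α))) := by
      have key : ∀ Q ⊆ irr A, ∀ Q' ⊆ irr A, Q.sup id = Q'.sup id → Q ⊆ Q' := by
        intro Q hQ Q' hQ' hQQ q hq
        obtain ⟨x, hx⟩ := ((hirrdef q).1 (hQ hq)).2.1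
        have h1 : x ∈ Q'.sup id := by
          rw [← hQQ, mem_sup]
          exact ⟨q, hq, hx⟩
        rw [mem_sup] at h1
        obtain ⟨r, hr, hxr⟩ := h1
        have hrq : r = q := by
          by_contra hh
          exact (disjoint_left.1 (hdis q (hQ hq) r (hQ' hr) hh)) hx hxr
        rwa [← hrq]
      intro Q hQ Q' hQ' hQQ
      rw [mem_coe, mem_powerset] at hQ hQ'
      exact subset_antisymm (key Q hQ Q' hQ' hQQ) (key Q' hQ' Q hQ hQQ.symm)
    rw [← hbij, card_image_of_injOn hinj, card_powerset, hbij]
  · exfalso
    obtain ⟨p, hp, hp', -⟩ := Pool.Agent.N435.One.dense_irr12 A (irr A) (linked A) hunion rfl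
      (by
        intro p hp
        unfold Pool.Agent.N435.nonisol at hp
        unfold linked
        convert hp using 2)
      (by unfold linked; exact filter_subset _ _) h1 hm H
    unfold linked at hp
    rw [mem_filter] at hp
    obtain ⟨-, q, hq, hqp, hd⟩ := hp
    exact hd (hp' q hq hqp)

end Pool.Agent.Results.MP_163ab5_co.ExponentialDensity
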